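import Pool.Agent.V5helper50.SP.Stm
import Pool.Agent.V5helper51.MT.FIN2

/-!
Project SP, job EXT, the lower bound: one more variable (adapted from `V5helper51.MT.FIN5`).
-/

set_option autoImplicit false

open Finset MeasureTheory

namespace Pool.Agent.V5helper87.SP

open Pool.Agent.V5helper50.SP
open Pool.Agent.V5helper51.MT (a a_dvd)

/-- the lower bound in `Two` -/
def LowB (k d q : ℕ) (α : Fin (k - 1) → ℝ) (c : ℝ) : Prop := ∀ ρ : Fin d → ℕ, ∃ n₀ : ℕ, ∀ n : ℕ, n₀ ≤ n →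
  ((q : ℤ) ∣ (n : ℤ) - ∑ i, (ρ i : ℤ) ^ k) →
    c / (q : ℝ) ^ (d - 1) * (n : ℝ) ^ ((d : ℝ) / k - 1) ≤ (R k q d α ρ n : ℝ)

theorem t_EXTL (hG : S_GRW) (k s : ℕ) (hk : 2 ≤ k) (hs : 2 * k + 1 ≤ s) (c : ℝ) (hc : 0 < c) :
    ∃ c' : ℝ, 0 < c' ∧ ∀ (q : ℕ) (α : Fin (k - 1) → ℝ), 1 ≤ q → LowB k s q α c → LowB k (s + 1) q α c' := by
  classical
  have hk0 : (0 : ℝ) < k := by positivity
  have hkne : (k : ℝ) ≠ 0 := hk0.ne'
  set β : ℝ := (s : ℝ) / k - 1 with hβ
  have hβ0 : 0 ≤ β := by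
    have h1 : (k : ℝ) ≤ s := by exact_mod_cast (by omega : k ≤ s)
    rw [hβ, sub_nonneg, le_div_iff₀ hk0]
    linarith
  refine ⟨c * (1 / 2) ^ β / 16, by positivity, fun q α hq h ρ => ?_⟩
  obtain ⟨n₀, hn₀⟩ := h (fun i => ρ i.castSucc)
  obtain ⟨⟨x₀, hx₀, ha, -⟩, -, hfin, -⟩ := hG k q hk hq α
  set r : ℕ := ρ (Fin.last s) with hr
  have hq0 : (0 : ℝ) < q := by exact_mod_cast (by omega : 0 < q)
  have hq1 : (1 : ℝ) ≤ q := by exact_mod_cast hq
  -- the threshold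
  set Y : ℝ := 4 * q + 2 * (q * x₀ + r) with hY
  have hY0 : 0 < Y := by positivity
  obtain ⟨n₁, hn₁⟩ := exists_nat_ge (4 * Y ^ k + 2 * n₀ + 1)
  refine ⟨n₁, fun n hn hd => ?_⟩
  have hnn : 4 * Y ^ k + 2 * n₀ + 1 ≤ (n : ℝ) := hn₁.trans (by exact_mod_cast hn)
  have hYk : 0 < Y ^ k := by positivity
  have hn0 : (0 : ℝ) < n := by
    have : (0 : ℝ) ≤ n₀ := Nat.cast_nonneg _
    linarith
  set y : ℝ := ((n : ℝ) / 4) ^ (1 / (k : ℝ)) with hy
  have hy0 : 0 < y := by positivity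
  have hyk : y ^ k = n / 4 := by
    rw [hy, one_div, Real.rpow_inv_natCast_pow (by positivity) (by omega)]
  have hyY : Y ≤ y := by
    have h1 : Y ^ k ≤ y ^ k := by
      rw [hyk]
      have : (0 : ℝ) ≤ n₀ := Nat.cast_nonneg _
      linarith
    exact le_of_pow_le_pow_left₀ (by omega) hy0.le h1
  set N : ℕ := ⌊y / (2 * q)⌋₊ with hN
  have hNle : (N : ℝ) ≤ y / (2 * q) := Nat.floor_le (by positivity)
  have hNge : y / (4 * q) ≤ N := by
    have h1 : y / (2 * q) < N + 1 := Nat.lt_floor_add_one _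
    have h2 : 1 ≤ y / (4 * q) := by
      rw [le_div_iff₀ (by positivity)]
      have : (0 : ℝ) ≤ q * x₀ + r := by positivity
      linarith
    have h3 : y / (2 * q) = y / (4 * q) + y / (4 * q) := by field_simp; ring
    linarith
  have hyn : (n : ℝ) ^ (1 / (k : ℝ)) ≤ 4 * y := by
    have h1 : (n : ℝ) ≤ (4 * y) ^ k := by
      rw [mul_pow, hyk]
      have : (4 : ℝ) ≤ 4 ^ k := by
        calc (4 : ℝ) = 4 ^ 1 := (pow_one _).symm
          _ ≤ _ := pow_le_pow_right₀ (by norm_num) (by omega)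
      nlinarith
    calc (n : ℝ) ^ (1 / (k : ℝ)) ≤ ((4 * y) ^ k) ^ (1 / (k : ℝ)) :=
          Real.rpow_le_rpow hn0.le h1 (by positivity)
      _ = 4 * y := by rw [one_div, Real.pow_rpow_inv_natCast (by positivity) (by omega)]
  -- the extra variable
  have hz : ∀ z ∈ Ico x₀ (x₀ + N), x₀ ≤ q * z + r ∧ ((q * z + r : ℕ) : ℝ) ≤ y := by
    intro z hz
    rw [mem_Ico] at hz
    refine ⟨by nlinarith, ?_⟩
    push_cast
    have h1 : (z : ℝ) ≤ x₀ + N := by exact_mod_cast hz.2.le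
    have h2 : (q : ℝ) * z ≤ q * (x₀ + N) := by gcongr
    have h3 : (q : ℝ) * N ≤ y / 2 := by
      calc (q : ℝ) * N ≤ q * (y / (2 * q)) := by gcongr
        _ = y / 2 := by field_simp
    nlinarith
  have hrep : ∀ z ∈ Ico x₀ (x₀ + N), ∃ S : Finset (Fin s → ℕ),
      c / (q : ℝ) ^ (s - 1) * ((n : ℝ) / 2) ^ β ≤ S.card ∧
        ∀ x ∈ S, (∀ i, x i % q = ρ i.castSucc % q) ∧
        ∑ i, a k q α (x i) = n - a k q α (q * z + r) := by
    intro z hz'
    obtain ⟨h1, h2⟩ := hz z hz'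
    obtain ⟨h3, h4⟩ := ha _ h1
    have h5 : ((q * z + r : ℕ) : ℝ) ^ k ≤ n / 4 := by
      rw [← hyk]
      exact pow_le_pow_left₀ (Nat.cast_nonneg _) h2 k
    have h6 : (a k q α (q * z + r) : ℝ) ≤ n / 2 := by linarith
    have h7 : a k q α (q * z + r) ≤ n := by
      have : (a k q α (q * z + r) : ℝ) ≤ ((n : ℤ) : ℝ) := by push_cast; linarith
      exact_mod_cast this
    set n' : ℕ := ((n : ℤ) - a k q α (q * z + r)).toNat with hn'
    have h8 : (n' : ℤ) = n - a k q α (q * z + r) := Int.toNat_of_nonneg (by linarith)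
    have h9 : (n' : ℝ) = n - (a k q α (q * z + r) : ℝ) := by exact_mod_cast h8
    have h10 : (n : ℝ) / 2 ≤ n' := by rw [h9]; linarith
    have h11 : n₀ ≤ n' := by
      have : (n₀ : ℝ) ≤ n' := by linarith
      exact_mod_cast this
    have h12 : (q : ℤ) ∣ (n' : ℤ) - ∑ i : Fin s, (ρ i.castSucc : ℤ) ^ k := by
      have h13 : (q : ℤ) ∣ a k q α (q * z + r) - (r : ℤ) ^ k := by
        refine a_dvd k q α _ _ ?_
        rw [Nat.mul_add_mod]
      rw [Fin.sum_univ_castSucc] at hd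
      have h14 := dvd_sub hd h13
      have h15 : (n' : ℤ) - ∑ i : Fin s, (ρ i.castSucc : ℤ) ^ k =
          (n : ℤ) - (∑ i : Fin s, (ρ i.castSucc : ℤ) ^ k + (ρ (Fin.last s) : ℤ) ^ k) -
            (a k q α (q * z + r) - (r : ℤ) ^ k) := by
        rw [h8, hr]
        ring
      rw [h15]
      exact h14
    have hS1 := hn₀ n' h11 h12
    have hf := hfin s (fun i => ρ i.castSucc) n'
    refine ⟨hf.toFinset, le_trans ?_ (hS1.trans (le_of_eq ?_)), fun x hx => ?_⟩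
    · gcongr
    · unfold R
      rw [Set.ncard_eq_toFinset_card _ hf]
    · rw [← h8]
      exact hf.mem_toFinset.1 hx
  choose! F hF1 hF2 using hrep
  -- all together
  set I : Finset (Fin (s + 1) → ℕ) :=
    ((Ico x₀ (x₀ + N)).sigma F).image fun p => (Fin.snoc p.2 (q * p.1 + r) : Fin (s + 1) → ℕ) with hI
  have hIR : I.card ≤ R k q (s + 1) α ρ n := by
    unfold R
    rw [← Set.ncard_coe_finset]
    refine Set.ncard_le_ncard ?_ (hfin (s + 1) ρ n)
    intro x hx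
    rw [hI, mem_coe, mem_image] at hx
    obtain ⟨⟨z, w⟩, hp, rfl⟩ := hx
    rw [mem_sigma] at hp
    obtain ⟨h1, h2⟩ := hF2 z hp.1 w hp.2
    refine ⟨?_, ?_⟩
    · intro i
      refine Fin.lastCases ?_ (fun j => ?_) i
      · simp only [Fin.snoc_last]
        rw [Nat.mul_add_mod]
      · simp only [Fin.snoc_castSucc]
        exact h1 j
    · rw [Fin.sum_univ_castSucc]
      simp only [Fin.snoc_last, Fin.snoc_castSucc]
      rw [h2]
      ring
  refine le_trans ?_ (Nat.cast_le.2 hIR)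
  rw [hI, card_image_of_injOn]
  · rw [card_sigma]
    push_cast
    have hqs : (q : ℝ) ^ (s + 1 - 1) = q * (q : ℝ) ^ (s - 1) := by
      rw [← pow_succ', Nat.sub_add_cancel (by omega), Nat.add_sub_cancel]
    have hqp : 0 < (q : ℝ) ^ (s - 1) := by positivity
    calc c * (1 / 2) ^ β / 16 / (q : ℝ) ^ (s + 1 - 1) * (n : ℝ) ^ (((s : ℝ) + 1) / k - 1)
        = (n : ℝ) ^ (1 / (k : ℝ)) / (16 * q) * (c / (q : ℝ) ^ (s - 1) * ((n : ℝ) / 2) ^ β) := by
          have h1 : (((s : ℝ) + 1) / k - 1) = 1 / k + β := by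
            rw [hβ]; ring
          have h2 : ((n : ℝ) / 2) ^ β = (1 / 2) ^ β * (n : ℝ) ^ β := by
            rw [← Real.mul_rpow (by norm_num) hn0.le]; congr 1; ring
          rw [h1, Real.rpow_add hn0, h2, hqs]
          field_simp
      _ ≤ (4 * y) / (16 * q) * (c / (q : ℝ) ^ (s - 1) * ((n : ℝ) / 2) ^ β) := by gcongr
      _ = y / (4 * q) * (c / (q : ℝ) ^ (s - 1) * ((n : ℝ) / 2) ^ β) := by ring
      _ ≤ (N : ℝ) * (c / (q : ℝ) ^ (s - 1) * ((n : ℝ) / 2) ^ β) := by gcongr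
      _ = ∑ z ∈ Ico x₀ (x₀ + N), (c / (q : ℝ) ^ (s - 1) * ((n : ℝ) / 2) ^ β) := by
          rw [sum_const, Nat.card_Ico, nsmul_eq_mul]
          simp
      _ ≤ ∑ z ∈ Ico x₀ (x₀ + N), ((F z).card : ℝ) := sum_le_sum fun z hz' => hF1 z hz'
  · rintro ⟨z, x⟩ - ⟨z', x'⟩ - heq
    have heq' : (Fin.snoc x (q * z + r) : Fin (s + 1) → ℕ) = Fin.snoc x' (q * z' + r) := heq
    have h1 : q * z + r = q * z' + r := by
      have := congrFun heq' (Fin.last s)
      simpa only [Fin.snoc_last] using this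
    have h2 : z = z' := by
      have : q * z = q * z' := by omega
      exact Nat.eq_of_mul_eq_mul_left (by omega) this
    have h3 : x = x' := by
      funext i
      have := congrFun heq' i.castSucc
      simpa only [Fin.snoc_castSucc] using this
    subst h2
    subst h3
    rfl

end Pool.Agent.V5helper87.SP
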